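import Pool.Agent.TH787.CBF

/-!
# Conjugacy biprimitively finite `p`-groups that are not built from binary finite groups

Answer to Q2 of MP_068a9c_al, for every odd prime `p`.
-/

set_option autoImplicit false

namespace Pool.Agent.Results.MP_068a9c_al.OddPGroups

open Pool.Agent.TH787 Pool.Agent.TH787.RelMod Pool.Agent.TH787.CBF

/-- A group `G` is conjugacy biprimitively finite: for every finite subgroup `H` of `G`, any two
elements `a`, `b` of prime order of `N_G(H)/H` that are conjugate in `N_G(H)/H` generate a finite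
subgroup. -/
def ConjBiprimFinite (G : Type) [Group G] : Prop :=
  ∀ H : Subgroup G, Finite H →
    ∀ a b : Subgroup.normalizer (H : Set G) ⧸ H.subgroupOf (Subgroup.normalizer (H : Set G)),
      (orderOf a).Prime → (orderOf b).Prime → IsConj a b →
        Finite (Subgroup.closure {a, b} : Subgroup
          (Subgroup.normalizer (H : Set G) ⧸ H.subgroupOf (Subgroup.normalizer (H : Set G))))

/-- Any two elements of `K` generate a finite subgroup. -/
def BinaryFinite (K : Type) [Group K] : Prop :=
  ∀ x y : K, Finite (Subgroup.closure {x, y} : Subgroup K)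

/-- The class `𝓔`: the smallest class of groups that contains all `2`-groups and all binary finite
groups and is closed under extensions (and isomorphisms). -/
inductive InE : ∀ (K : Type) [Group K], Prop
  | two (K : Type) [Group K] : IsPGroup 2 K → InE K
  | binary (K : Type) [Group K] : BinaryFinite K → InE K
  | ext (K : Type) [Group K] (N : Subgroup K) [N.Normal] : InE N → InE (K ⧸ N) → InE K
  | iso (K L : Type) [Group K] [Group L] : (K ≃* L) → InE K → InE L

/-- no group of the class `𝓔` has a bad quotient -/
theorem noBad_of_inE {K : Type} [Group K] (h : InE K) : NoBad K := by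
  induction h with
  | two K h => exact noBad_two K h
  | binary K h => exact noBad_bin K (fun x y => h x y)
  | ext K N _ _ h1 h2 => exact noBad_ext K N h1 h2
  | iso K L e _ h => exact noBad_iso K L e h

/-- the group `GG p Q` is conjugacy biprimitively finite, in terms of elements -/
theorem elementwise {p : ℕ} [hp : Fact p.Prime] {Q : Type} [Group Q]
    (h1 : ∀ g : Q, ∃ k : ℕ, g ^ (p ^ k) = 1) (H : Subgroup (GG p Q))
    (hH : (H : Set (GG p Q)).Finite) (a b : GG p Q)
    (ha : a ∈ Subgroup.normalizer (H : Set (GG p Q)))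
    (hb : b ∈ Subgroup.normalizer (H : Set (GG p Q))) (q : ℕ) (hq : q.Prime)
    (haH : a ∉ H) (haq : a ^ q ∈ H)
    (hc : ∃ c ∈ Subgroup.normalizer (H : Set (GG p Q)), c * a * c⁻¹ * b⁻¹ ∈ H) :
    ((Subgroup.closure (insert a (insert b (H : Set (GG p Q))))) : Set (GG p Q)).Finite := by
  obtain ⟨c, hcN, hcH⟩ := hc
  apply fin_of_fg
  · refine (Subgroup.fg_iff _).2 ⟨_, rfl, ?_⟩
    exact (hH.insert b).insert a
  by_cases hne : H = ⊥
  · subst hne
    rw [Subgroup.mem_bot] at haH haq hcH
    have hax : a.x = 1 := x_of_prime h1 hq haH haq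
    have hbx : b.x = 1 := by
      have : b = c * a * c⁻¹ := (mul_inv_eq_one.1 hcH).symm
      rw [this, GG.mul_x, GG.mul_x, hax, GG.inv_x, mul_one, mul_inv_cancel]
    have hle : Subgroup.closure (insert a (insert b ((⊥ : Subgroup (GG p Q)) : Set (GG p Q)))) ≤
        (GG.pi p Q).ker := by
      rw [Subgroup.closure_le]
      rintro x (rfl | rfl | hx)
      · exact hax
      · exact hbx
      · rw [Subgroup.coe_bot, Set.mem_singleton_iff] at hx
        rw [hx]
        exact Subgroup.one_mem _
    refine (Set.finite_singleton (1 : Q)).subset ?_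
    rintro _ ⟨x, hx, rfl⟩
    exact hle hx
  · refine (norm_fin h1 H hH hne).subset (Set.image_mono ?_)
    have hle : Subgroup.closure (insert a (insert b (H : Set (GG p Q)))) ≤
        Subgroup.normalizer (H : Set (GG p Q)) := by
      rw [Subgroup.closure_le]
      rintro x (rfl | rfl | hx)
      · exact ha
      · exact hb
      · exact Subgroup.le_normalizer hx
    intro g hg h hh
    exact (Subgroup.mem_normalizer_iff.1 (hle hg) h).1 hh

/-- a subgroup of a section generated by two elements is finite when a corresponding subgroup of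
the group is -/
theorem closure_finite {G : Type} [Group G] (N H : Subgroup G) [(H.subgroupOf N).Normal]
    (a b : N)
    (hfin : ((Subgroup.closure (insert (a : G) (insert (b : G) (H : Set G)))) : Set G).Finite) :
    Finite (Subgroup.closure {(QuotientGroup.mk a : N ⧸ H.subgroupOf N),
        (QuotientGroup.mk b : N ⧸ H.subgroupOf N)} : Subgroup (N ⧸ H.subgroupOf N)) := by
  have h2 : (Subgroup.closure {(QuotientGroup.mk a : N ⧸ H.subgroupOf N),
      (QuotientGroup.mk b : N ⧸ H.subgroupOf N)} : Subgroup (N ⧸ H.subgroupOf N)) =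
      (Subgroup.closure {a, b}).map (QuotientGroup.mk' (H.subgroupOf N)) := by
    rw [MonoidHom.map_closure, Set.image_pair]
    rfl
  have h3 : ((Subgroup.closure {a, b} : Subgroup N) : Set N).Finite := by
    have h4 : ((Subgroup.closure {a, b} : Subgroup N) : Set N) ⊆ (fun x : N => (x : G)) ⁻¹'
        ((Subgroup.closure (insert (a : G) (insert (b : G) (H : Set G))) : Subgroup G) :
          Set G) := by
      intro x hx
      have h5 : (Subgroup.closure {a, b} : Subgroup N) ≤
          (Subgroup.closure (insert (a : G) (insert (b : G) (H : Set G)))).comap N.subtype := by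
        rw [Subgroup.closure_le]
        rintro y (rfl | rfl)
        · exact Subgroup.subset_closure (Set.mem_insert _ _)
        · exact Subgroup.subset_closure (Set.mem_insert_of_mem _ (Set.mem_insert _ _))
      exact h5 hx
    exact (hfin.preimage Subtype.val_injective.injOn).subset h4
  rw [h2]
  have h6 : (((Subgroup.closure {a, b}).map (QuotientGroup.mk' (H.subgroupOf N)) :
      Subgroup (N ⧸ H.subgroupOf N)) : Set (N ⧸ H.subgroupOf N)).Finite := by
    rw [Subgroup.coe_map]
    exact h3.image _
  exact h6

/-- the group `GG p Q` is conjugacy biprimitively finite -/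
theorem conjBiprimFinite {p : ℕ} [hp : Fact p.Prime] {Q : Type} [Group Q]
    (h1 : ∀ g : Q, ∃ k : ℕ, g ^ (p ^ k) = 1) : ConjBiprimFinite (GG p Q) := by
  intro H hH a b ha _ hab
  obtain ⟨a', rfl⟩ := QuotientGroup.mk_surjective a
  obtain ⟨b', rfl⟩ := QuotientGroup.mk_surjective b
  obtain ⟨c, hc⟩ := isConj_iff.1 hab
  obtain ⟨c', rfl⟩ := QuotientGroup.mk_surjective c
  have hfin := elementwise h1 H hH (a' : GG p Q) (b' : GG p Q) a'.2 b'.2 _ ha ?_ ?_
    ⟨c', c'.2, ?_⟩
  · exact closure_finite _ H a' b' hfin
  · intro h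
    have h7 : (QuotientGroup.mk a' : Subgroup.normalizer (H : Set (GG p Q)) ⧸
        H.subgroupOf (Subgroup.normalizer (H : Set (GG p Q)))) = 1 :=
      (QuotientGroup.eq_one_iff a').2 (Subgroup.mem_subgroupOf.2 h)
    rw [h7, orderOf_one] at ha
    exact Nat.not_prime_one ha
  · have h8 := pow_orderOf_eq_one (QuotientGroup.mk a' :
      Subgroup.normalizer (H : Set (GG p Q)) ⧸
        H.subgroupOf (Subgroup.normalizer (H : Set (GG p Q))))
    rw [← QuotientGroup.mk_pow] at h8
    exact Subgroup.mem_subgroupOf.1 ((QuotientGroup.eq_one_iff _).1 h8)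
  · have h9 : (QuotientGroup.mk (c' * a' * c'⁻¹ * b'⁻¹) :
        Subgroup.normalizer (H : Set (GG p Q)) ⧸
          H.subgroupOf (Subgroup.normalizer (H : Set (GG p Q)))) = 1 := by
      rw [QuotientGroup.mk_mul, QuotientGroup.mk_mul, QuotientGroup.mk_mul, QuotientGroup.mk_inv,
        QuotientGroup.mk_inv, hc, mul_inv_cancel]
    exact Subgroup.mem_subgroupOf.1 ((QuotientGroup.eq_one_iff _).1 h9)

/-- For every odd prime `p` there is a conjugacy biprimitively finite `p`-group that is not in the
class `𝓔`. -/
theorem result :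
    ∀ p : ℕ, p.Prime → p ≠ 2 →
      ∃ (G : Type) (_ : Group G), IsPGroup p G ∧ ConjBiprimFinite G ∧ ¬ InE G := by
  intro p hp hp2
  have hfact : Fact p.Prime := ⟨hp⟩
  have hodd : Odd p := hp.odd_of_ne_two hp2
  obtain ⟨Q, _, h1, h2, h3⟩ := MonP.exists_monster (p := p) hodd hp.one_lt
  have hbad : Bad Q := bad_monster (p := p) hodd h1 h2 h3
  exact ⟨GG p Q, inferInstance, fun g => pgroup h1 g, conjBiprimFinite h1,
    fun h => noBad_of_inE h Q (GG.pi p Q) GG.pi_surj hbad⟩

end Pool.Agent.Results.MP_068a9c_al.OddPGroups
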